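import Pool.Agent.P.MP_4ef411_nt.Al.St

/-!
Correlations at every scale with the Liouville function at one site and free functions at the
other sites: the statements of the blocks that change.
-/

open Finset

namespace Pool.Agent.P.MP_192724_nt.Sp

open Pool.Agent.P.MP_a14ce1_nt
open Pool.Agent.P.MP_a14ce1_nt.Fu
open Pool.Agent.P.MP_a14ce1_nt.Fu.St
open Pool.Agent.P.MP_a14ce1_nt.Ch (pv lam)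
open Pool.Agent.P.MP_4ef411_nt

/-- no data of section 7 far out -/
def S_No7 : Prop := ∀ (r L : ℕ) (δ : ℝ), 0 < δ → ∃ (η : ℝ) (C : ℕ), 0 < η ∧ η ≤ 1 ∧
  ∀ (Om cm M : ℝ) (B : ℕ), (C : ℝ) ≤ Om → 1 ≤ cm → 1 ≤ M → Om ^ C ≤ Real.log M →
    Om ^ 2 * cm ≤ Real.exp M → ∃ Z0 : ℕ,
    ∀ (ι : Type) (Z : ℕ) (d : D7 ι Z) (G : ℕ → Fin Z → ℕ → ℝ) (i0 : ℕ) (wb τ ℓ a : ℝ)
      (T : Finset ℕ) (W : Finset ℕ → ℝ),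
      Z0 ≤ Z → d.N ≤ B → d.Hyp r L 0 Om wb τ ℓ η (Real.exp (Om ^ C)) → Al.Ext d G r i0 δ ℓ →
      (∀ p ∈ T, p.Prime ∧ p ≤ B ∧ a ≤ Real.log p ∧ Real.log p ≤ a * Om) → (∀ S, |W S| ≤ 1) →
      (∀ n, (d.f n : ℂ) = wl T W n) → (∀ c ∈ d.CC, (d.cv c : ℝ) ≤ cm) →
      (∀ u : ℝ, ∑ c ∈ d.CC.filter (fun c => u ≤ Real.log (d.cv c) ∧ Real.log (d.cv c) ≤ u + 1),
        d.wh c / d.cv c ≤ Om / M) →
      a ≤ M → Om ^ 2 * (Real.exp M * cm) ≤ d.N → False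

/-- section 7, with sections 8 and 9 -/
def S_SEC7 : Prop := ∀ k : ℕ, ∃ C : ℕ, ∀ δ Cw : ℝ, 0 < δ → ∃ C2 : ℕ, ∀ (F : Fam) (P : Par),
  F.k = k → P.Cw = Cw → Hyp F P C → Hyp7 F P C2 → ∃ Z0 : ℕ,
  ∀ (A : Type) [Fintype A] (dt : ℕ → A) (Z : ℕ) (C0 : ℕ → Finset ℕ) (s : ℕ → ℝ) (X : ℕ → ℕ → ℝ)
    (i0 : ℕ), Z0 ≤ Z → Dat F P A Z C0 → (∀ d, |s d| ≤ 1) → (∀ i n, |X i n| ≤ 1) → i0 < k →
    X i0 = lam → Al.Tfr F Z s (fun i => pred Z F.Qk0 dt C0 F.z0 (X i)) ≤ δ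

/-- the conclusion of the blocks -/
def S_Main : Prop := ∀ (k R M : ℕ) (δ : ℝ), 2 ≤ k → 0 < δ → ∃ X0 : ℕ,
  ∀ (X i0 : ℕ) (cr : ℕ → ℝ) (s : Fin R → ℕ → ℝ) (x : Fin R → ℕ → ℕ → ℝ) (B : Type) [Fintype B]
    (db : ℕ → B), X0 ≤ X → i0 < k → Fintype.card B ≤ M →
    (∀ n, |cr n| ≤ 1) → (∀ j d, |s j d| ≤ 1) → (∀ j i n, |x j i n| ≤ 1) →
    (∀ n n', db n = db n' → ∀ j i, x j i n = x j i n') → (∀ j, x j i0 = lam) →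
    (∀ c : Finset ℕ, (∀ q ∈ c, q.Prime) → ∀ m, 0 < m →
      ∑ j, s j (pv c) * ∏ i ∈ range k, x j i (pv c * (m + i)) = cr m) →
    |∑ n ∈ Icc 1 X, cr n| ≤ δ * X

/-- cancellation along non-proportional affine forms -/
def S_Forms : Prop := ∀ (k : ℕ) (a b : Fin k → ℕ) (δ : ℝ), 0 < k → (∀ i, 0 < a i) →
  (∀ i j, i ≠ j → a i * b j ≠ a j * b i) → 0 < δ →
  ∀ᶠ N : ℕ in Filter.atTop, |∑ n ∈ Icc 1 N, ∏ i, lam (a i * n + b i)| ≤ δ * N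

end Pool.Agent.P.MP_192724_nt.Sp
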