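import Pool.Agent.P.MP_4ef411_nt.Al.Glue
import Pool.Agent.P.MP_192724_nt.Sp.St

/-! The blocks imply the main statement. -/

open Finset

namespace Pool.Agent.P.MP_192724_nt.Sp

open Pool.Agent.P.MP_a14ce1_nt
open Pool.Agent.P.MP_a14ce1_nt.Fu
open Pool.Agent.P.MP_a14ce1_nt.Fu.St
open Pool.Agent.P.MP_a14ce1_nt.Ch (pv lam)
open Pool.Agent.P.MP_4ef411_nt
open Pool.Agent.P.MP_4ef411_nt.Al.Glue

theorem main (hB : Al.S_BIAS) (hC : Al.S_COMP) (hR : Fu.St.S_ROLE) (hT : Al.S_TEST1)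
    (h7 : S_SEC7) (hP : Al.S_PAR) (hV : Fu.St.S_VV) : S_Main := by
  classical
  intro k R M δ hk hδ
  obtain ⟨C1, hB⟩ := hB k
  obtain ⟨C3, hb⟩ := blkM hC hR hT k
  obtain ⟨C4, h7⟩ := h7 k
  set C := C1 + C3 + C4 + 1 with hCd
  have hb := hb C (by omega)
  have kr : (2 : ℝ) ≤ k := by exact_mod_cast hk
  have Cr : (1 : ℝ) ≤ C := by exact_mod_cast (by omega : 1 ≤ C)
  have C1r : (C1 : ℝ) ≤ C := by exact_mod_cast (by omega : C1 ≤ C)
  obtain ⟨G, hG⟩ : ∃ G : ℝ, G = 2 + k * (1 + R * k) := ⟨_, rfl⟩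
  have G2 : 2 ≤ G := by rw [hG]; exact le_add_of_nonneg_right (by positivity)
  obtain ⟨δ', hδ'⟩ : ∃ δ' : ℝ, δ' = δ / 4 / (R + 1) := ⟨_, rfl⟩
  have δ0 : 0 < δ' := by rw [hδ']; positivity
  have δ1 : δ' ≤ δ := by
    rw [hδ']
    exact (div_le_self (by positivity) (le_add_of_nonneg_left (by positivity))).trans (by linarith)
  obtain ⟨η, η0, η1, η2, η4⟩ : ∃ η : ℝ, 0 < η ∧ k * η ≤ 1 / 2 ∧ 4 * G * (C * η) ≤ δ' ∧
      M * η ≤ 1 := by
    refine ⟨min (min (1 / (2 * k)) (δ' / (4 * G * C))) (1 / (M + 1)), by positivity, ?_, ?_, ?_⟩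
    · calc _ ≤ k * (1 / (2 * k) : ℝ) := by
            gcongr; exact (min_le_left _ _).trans (min_le_left _ _)
        _ = _ := by field_simp
    · calc _ ≤ 4 * G * (C * (δ' / (4 * G * C))) := by
            gcongr; exact (min_le_left _ _).trans (min_le_right _ _)
        _ = _ := by field_simp
    · calc _ ≤ M * (1 / (M + 1) : ℝ) := by gcongr; exact min_le_right _ _
        _ ≤ _ := by rw [mul_one_div, div_le_one (by positivity)]; linarith
  have Cη : 0 < C * η := by positivity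
  have η3 : C1 * η ≤ δ := by nlinarith
  obtain ⟨Cw, hP⟩ := hP k C M η η hk η0 η1 η0 (by nlinarith) η4
  obtain ⟨C2, h7⟩ := h7 (δ' / 2) Cw (by positivity)
  obtain ⟨K, Λ, T, K0, hK, Tp, Td, hch⟩ := hP C2
  obtain ⟨-, F0, P0, -⟩ := hch 0 K0
  have : Nonempty (ℕ → Fam) := ⟨F0⟩
  have : Nonempty (ℕ → Par) := ⟨P0⟩
  choose! S F P hch hal using hch
  have Kr : 0 < Real.sqrt K := Real.sqrt_pos.2 (by exact_mod_cast K0)
  let Q : ℕ → ℕ := fun i => ∏ i' ∈ range i, pv (T i')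
  have Tpos : ∀ i, 0 < pv (T i) := fun i => prod_pos fun q hq => (Tp i q hq).pos
  have Qpos : 0 < Q K := prod_pos fun i _ => Tpos i
  let E : ℕ := Q K + ∑ i ∈ range K, pv (F i 0).all
  have hX : ∀ i < K, ∀ j < S i, _ := fun i hi j hj => by
    obtain ⟨c1, -, -, c2, c3, -, c4, -⟩ := (hch i hi).com j hj
    have H := ((hch i hi).hyp j hj).1
    refine hB (F i j) (P i j) c1 (H.mono (by omega)) δ (1 / Real.sqrt K) hδ (c2 ▸ η3) (c3 ▸ η3) ?_
      E R
    have L1 : 1 ≤ Λ := by have := H.Lk; rw [c1, c4] at this; linarith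
    rw [c3, c4, mul_one_div, div_le_iff₀ Kr]
    exact (pow_le_pow_right₀ L1 (Nat.mul_le_mul_right _ (by omega))).trans hK
  have hZ : ∀ i < K, ∀ j < S i, _ := fun i hi j hj =>
    h7 (F i j) (P i j) ((hch i hi).com j hj).1 ((hch i hi).com j hj).2.2.2.2.2.1
      (((hch i hi).hyp j hj).1.mono (by omega)) ((hch i hi).hyp j hj).2
  choose! X0 hX using hX
  choose! Z0 hZ using hZ
  refine ⟨E + 1 + ∑ i ∈ range K, ∑ j ∈ range (S i), (X0 i j + Z0 i j),
    fun X i0 cr s x B _ db hN hi0 hBM hcr hs hx hdb hcen hid => ?_⟩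
  by_contra hn
  obtain ⟨σ, σ1, hσ⟩ : ∃ σ : ℝ, |σ| = 1 ∧ δ * X ≤ ∑ n ∈ Icc 1 X, σ * cr n := by
    simp only [← mul_sum]
    rcases le_abs'.1 (not_le.1 hn).le with a | a
    · exact ⟨-1, by simp, by linarith⟩
    · exact ⟨1, by simp, by linarith⟩
  have hcr' : ∀ n, |σ * cr n| ≤ 1 := fun n => by rw [abs_mul, σ1, one_mul]; exact hcr n
  have hs' : ∀ j d, |σ * s j d| ≤ 1 := fun j d => by rw [abs_mul, σ1, one_mul]; exact hs j d
  obtain ⟨y1, y2⟩ := floor_mul X (Q K) Qpos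
  set Y := X / Q K * Q K
  have Y0 : 0 < Y := Nat.mul_pos (Nat.div_pos (by omega) Qpos) Qpos
  obtain ⟨i, hi, ht⟩ := t1 Y K Y0 K0 Q (fun i _ => ⟨pv (T i), prod_range_succ _ _⟩)
    (Dvd.intro_left _ rfl) (fun n => σ * cr n) fun n _ => hcr' n
  have hc := hch i hi
  obtain ⟨A, _, dz, hA, hdz⟩ := hal i hi
  have H0 := (hc.hyp 0 hc.S0).1
  have Pp : 0 < pv (F i 0).all := prod_pos fun q hq => (H0.pr q hq).pos
  have PE : pv (F i 0).all ≤ ∑ i ∈ range K, pv (F i 0).all :=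
    single_le_sum (f := fun i => pv (F i 0).all) (fun _ _ => Nat.zero_le _) (mem_range.2 hi)
  have D2 : 2 ≤ (F i 0).D := by
    have a := H0.Dbig
    have b := Real.one_le_exp (show 0 ≤ 2 * (P i 0).Lp by linarith [H0.Lp1])
    rw [(hc.com 0 hc.S0).1] at a
    nlinarith
  have X0' : (0 : ℝ) ≤ X := by positivity
  obtain ⟨z1, z2⟩ := floor_mul ⌊(F i 0).D * X⌋₊ _ Pp
  set Z := ⌊(F i 0).D * X⌋₊ / pv (F i 0).all * pv (F i 0).all
  have XZ : 2 * X ≤ ⌊(F i 0).D * X⌋₊ := Nat.le_floor (by push_cast; nlinarith)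
  have z3 : (Z : ℝ) ≤ (F i 0).D * X :=
    le_trans (by exact_mod_cast z1) (Nat.floor_le (by positivity))
  have z4 : (F i 0).D * X ≤ Z + E :=
    (Nat.lt_floor_add_one _).le.trans (by exact_mod_cast (by omega))
  have per : pv (F i 0).all ∣ Z := Dvd.intro_left _ rfl
  have big : ∀ j < S i, X0 i j + Z0 i j ≤ ∑ i ∈ range K, ∑ j ∈ range (S i), (X0 i j + Z0 i j) :=
    fun j hj => (single_le_sum (f := fun j => X0 i j + Z0 i j) (fun _ _ => Nat.zero_le _)
      (mem_range.2 hj)).trans (single_le_sum (f := fun i => ∑ j ∈ range (S i), (X0 i j + Z0 i j))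
        (fun _ _ => Nat.zero_le _) (mem_range.2 hi))
  have aB : ∀ j < S i, ∃ r : Fin R,
      δ' ≤ (F i j).Tf Z (fun d => σ * s r d) fun l n b => x r l (n + b) := fun j hj => by
    have H := (hc.hyp j hj).1
    have d1 : pv (F i j).TT ∣ pv (T i) := prod_dvd_prod_of_subset _ _ _ (hc.sub j hj)
    have d2 : pv (F i j).TT ∣ Q (i + 1) :=
      d1.trans (Dvd.intro_left _ (prod_range_succ (fun i' => pv (T i')) i).symm)
    have d3 : Q (i + 1) ∣ Y :=
      (prod_dvd_prod_of_subset _ _ _ (range_subset_range.2 hi)).trans (Dvd.intro_left _ rfl)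
    have d4 : (pv (F i j).TT).Coprime (Q i) := Nat.Coprime.coprime_dvd_left d1 <|
      Nat.Coprime.prod_right fun i' hi' => Nat.Coprime.prod_left fun q hq =>
        Nat.Coprime.prod_right fun q' hq' => (Nat.coprime_primes (Tp i q hq) (Tp i' q' hq')).2
          fun e => disjoint_left.1 (Td i i' (mem_range.1 hi').ne') hq (e ▸ hq')
    have eD := (hc.com j hj).2.2.1
    have eA := (hc.com j hj).2.2.2.2.2.2.2.1
    have := big j hj
    rw [hδ']
    refine exists_ge (by positivity) (hX i hi j hj X Y Z (fun n => σ * cr n)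
      (fun r d => σ * s r d) x (by omega) y1 (by omega) (eD ▸ z3) (eD ▸ z4) (eA ▸ per)
      (d2.trans d3) hcr' hs' hx (fun c hc' p hp m hm => ?_) hσ
      fun W h1 h2 => ht _ W 1 d2 d4 h1 h2)
    have pT : p ∈ (F i j).TT := mem_union_left _ (mem_union_right _ hp)
    have pc : p ∉ c := fun e => disjoint_left.1 H.toHyp0.dLo (hc' e) pT
    have e : pv c * p = pv (insert p c) := by
      rw [mul_comm]; exact (prod_insert (f := fun q : ℕ => q) pc).symm
    rw [e, ← hid (insert p c) (fun q hq => ?_) m hm, mul_sum]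
    · exact sum_congr rfl fun r _ => mul_assoc _ _ _
    · have qa : q ∈ (F i j).all := by
        rcases mem_insert.1 hq with rfl | hq
        exacts [mem_union_right _ pT, mem_union_left _ (hc' hq)]
      exact H.pr q qa
  obtain ⟨r0, -⟩ := aB 0 hc.S0
  have : Nonempty (Fin R) := ⟨r0⟩
  choose! J hJ using aB
  have cA : 0 < Fintype.card A := Fintype.card_pos_iff.2 ⟨dz 0⟩
  have cB : 0 < Fintype.card B := Fintype.card_pos_iff.2 ⟨db 0⟩
  obtain ⟨j, hj, C0, hd, hle⟩ := chainM hV hb hc (Z := Z) (by omega) per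
    (fun n => (dz n, db n)) (by
      refine le_trans (Real.log_le_log ?_ ?_) hA
      · rw [Fintype.card_prod]; positivity
      · rw [Fintype.card_prod, mul_comm]
        exact_mod_cast Nat.mul_le_mul_right _ hBM)
    (fun r d => σ * s r d) x hs' hx (fun t ht n n' e => hdz t ht n n' (congrArg Prod.fst e))
    (fun n n' e => hdb n n' (congrArg Prod.snd e)) J
  have := big j hj
  have a7 := hZ i hi j hj _ (fun n => (dz n, db n)) Z C0 (fun d => σ * s (J j) d) (x (J j)) i0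
    (by omega) hd (hs' _) (hx _) hi0 (hcen _)
  have := hJ j hj
  rw [← hG] at hle
  linarith

end Pool.Agent.P.MP_192724_nt.Sp
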