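import Pool.Agent.P.MP_4ef411_nt.Al.Red
import Pool.Agent.P.MP_192724_nt.Sp.St

/-! From the conclusion of the blocks to the cancellation along affine forms. -/

open Finset Filter

namespace Pool.Agent.P.MP_192724_nt.Sp

open Pool.Agent.P.MP_a14ce1_nt
open Pool.Agent.P.MP_a14ce1_nt.Fu (lam_mul abs_lam)
open Pool.Agent.P.MP_a14ce1_nt.Ch (pv lam)
open Pool.Agent.P.MP_4ef411_nt.Al.Red

theorem lam_congr {n n' : ℕ} (h : decide (lam n = 1) = decide (lam n' = 1)) : lam n = lam n' := by
  have h1 := decide_eq_decide.mp h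
  rcases abs_eq (zero_le_one' ℝ) |>.1 (abs_lam n) with a | a <;>
    rcases abs_eq (zero_le_one' ℝ) |>.1 (abs_lam n') with b | b
  · rw [a, b]
  · rw [h1.1 a, a]
  · rw [h1.2 b, b]
  · rw [a, b]

theorem lam_sq (n : ℕ) : lam n * lam n = 1 := by
  rw [← abs_mul_abs_self, abs_lam, one_mul]

theorem forms (h : S_Main) : S_Forms := by
  classical
  intro k a b δ hk ha hne hδ
  obtain ⟨A, hA⟩ : ∃ A, A = ∏ i, a i := ⟨_, rfl⟩
  have hAp : 0 < A := hA ▸ prod_pos fun i _ => ha i
  have hd : ∀ i, ∃ e, A = a i * e := fun i => hA ▸ dvd_prod_of_mem a (mem_univ i)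
  choose e he using hd
  have hep : ∀ i, 0 < e i := fun i => Nat.pos_of_mul_pos_left (he i ▸ hAp)
  obtain ⟨t, ht⟩ : ∃ t : Fin k → ℕ, ∀ i, t i = e i * b i := ⟨_, fun _ => rfl⟩
  have htinj : ∀ i j, t i = t j → i = j := fun i j hij => by
    by_contra hc
    refine hne i j hc (Nat.eq_of_mul_eq_mul_left hAp ?_)
    calc A * (a i * b j) = a i * a j * t j := by rw [he j, ht]; ring
      _ = a i * a j * t i := by rw [hij]
      _ = A * (a j * b i) := by rw [he i, ht]; ring
  obtain ⟨T, hT⟩ : ∃ T, T = A * (∑ i, t i + 1) := ⟨_, rfl⟩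
  have htT : ∀ i, t i < T := fun i => by
    have h1 : t i ≤ ∑ i, t i := single_le_sum (fun _ _ => Nat.zero_le _) (mem_univ i)
    have h2 : ∑ i, t i + 1 ≤ A * (∑ i, t i + 1) := Nat.le_mul_of_pos_left _ hAp
    omega
  have hT0 : 0 < T := hT ▸ Nat.mul_pos hAp (Nat.succ_pos _)
  have hA' : (0 : ℝ) < A := by exact_mod_cast hAp
  obtain ⟨N0, hN0⟩ := h (T + 1) (A + 1) (2 * 2 ^ (A + 1)) (δ / A) (by omega) (by positivity)
  let i0 : Fin k := ⟨0, hk⟩
  filter_upwards [eventually_ge_atTop N0] with N hN
  have hb : ∀ n, |lam n| ≤ 1 := fun n => (abs_lam n).le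
  have key := hN0 (A * N) (t i0) (fun m => if A ∣ m then ∏ i, lam (m + t i) else 0)
    (fun j d => if Nat.gcd d A = j then lam d ^ k else 0)
    (fun j s n => if s = T then (if A * j ∣ n then 1 else 0) else
      ∏ _i ∈ univ.filter (fun i => t i = s), lam n)
    (Bool × (Fin (A + 1) → Bool))
    (fun n => (decide (lam n = 1), fun j => decide (A * j ∣ n)))
    (hN.trans (Nat.le_mul_of_pos_left _ hAp)) (by have := htT i0; omega) (by simp)
    (fun m => by
      split_ifs
      · exact abs_prod_le _ fun i => hb _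
      · simp)
    (fun j d => by
      split_ifs
      · rw [abs_pow, abs_lam, one_pow]
      · simp)
    (fun j s n => by
      split_ifs
      · simp
      · simp
      · exact abs_prod_le _ fun i => hb _)
    (fun n n' hn j s => by
      have h1 : lam n = lam n' := lam_congr (congrArg Prod.fst hn)
      have h2 : A * j ∣ n ↔ A * j ∣ n' := decide_eq_decide.mp (congrFun (congrArg Prod.snd hn) j)
      simp only [h1, h2])
    (fun j => funext fun n => by
      have e1 : univ.filter (fun i => t i = t i0) = {i0} := by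
        ext i
        simp only [mem_filter, mem_univ, true_and, mem_singleton]
        exact ⟨htinj i i0, fun e => by rw [e]⟩
      rw [if_neg (htT i0).ne, e1, prod_singleton])
    (fun c hc m hm => by
      have hs := sqf hc
      have e1 : ∀ j : Fin (A + 1), ∏ s ∈ range (T + 1), (if s = T then
          (if A * j ∣ pv c * (m + s) then (1 : ℝ) else 0) else
          ∏ _i ∈ univ.filter (fun i => t i = s), lam (pv c * (m + s))) =
          (lam (pv c) ^ k * ∏ i, lam (m + t i)) *
            (if A * j ∣ pv c * (m + T) then (1 : ℝ) else 0) := by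
        intro j
        have e0 : lam (pv c) ^ k * ∏ i, lam (m + t i) = ∏ i, lam (pv c) * lam (m + t i) := by
          rw [prod_mul_distrib, prod_const, card_univ, Fintype.card_fin]
        rw [e0, prod_range_succ, if_pos rfl, ← prod_fiberwise_of_maps_to (s := univ) (t := range T)
          (g := t) (fun i _ => mem_range.2 (htT i))]
        congr 1
        refine prod_congr rfl fun s hs' => ?_
        rw [if_neg (mem_range.1 hs').ne]
        refine prod_congr rfl fun i hi => ?_
        rw [(mem_filter.1 hi).2, lam_mul hs.ne_zero (by omega)]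
      simp only [e1]
      rw [sum_eq_single ⟨Nat.gcd (pv c) A, Nat.lt_succ_of_le (Nat.gcd_le_right _ hAp)⟩]
      · have e2 : A * Nat.gcd (pv c) A ∣ pv c * (m + T) ↔ A ∣ m := by
          rw [dvd_iff hAp hs, hT]
          exact (Nat.dvd_add_iff_left (dvd_mul_right _ _)).symm
        have e3 : lam (pv c) ^ k * lam (pv c) ^ k = 1 := by rw [← mul_pow, lam_sq, one_pow]
        simp only [e2, if_true, mul_ite, mul_one, mul_zero]
        rw [← mul_assoc, e3, one_mul]
      · intro j _ hj
        rw [if_neg fun e => hj (Fin.ext e.symm), zero_mul]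
      · exact fun hj => absurd (mem_univ _) hj)
  rw [sum_mul hAp, Nat.cast_mul, ← mul_assoc, div_mul_cancel₀ _ hA'.ne'] at key
  refine le_of_eq_of_le ?_ key
  have e4 : ∑ n ∈ Icc 1 N, ∏ i, lam (A * n + t i) =
      (∏ i, lam (e i)) * ∑ n ∈ Icc 1 N, ∏ i, lam (a i * n + b i) := by
    rw [mul_sum]
    refine sum_congr rfl fun n hn => ?_
    rw [← prod_mul_distrib]
    refine prod_congr rfl fun i _ => ?_
    have h1 : 0 < a i * n := Nat.mul_pos (ha i) (mem_Icc.1 hn).1
    have h3 : A * n + t i = e i * (a i * n + b i) := by rw [ht, he i]; ring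
    rw [h3, lam_mul (hep i).ne' (by omega)]
  rw [e4, abs_mul, abs_prod]
  simp only [abs_lam, prod_const_one, one_mul]

end Pool.Agent.P.MP_192724_nt.Sp
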