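import Pool.Agent.P.MP_4ef411_nt.Sm.Poly
import Pool.Agent.P.MP_192724_nt.Sp.Red

/-! From affine forms to polynomials whose roots of odd multiplicity are rational. -/

open Finset Filter Polynomial

namespace Pool.Agent.P.MP_192724_nt.Sp

open Pool.Agent.P.MP_a14ce1_nt
open Pool.Agent.P.MP_a14ce1_nt.Fu (lam_mul abs_lam)
open Pool.Agent.P.MP_a14ce1_nt.Ch (lam)
open Pool.Agent.P.MP_4ef411_nt.Sm (eval_eq)

theorem lamZ_mul {x y : ℤ} (hx : x ≠ 0) (hy : y ≠ 0) :
    lam (x * y).natAbs = lam x.natAbs * lam y.natAbs := by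
  rw [Int.natAbs_mul, lam_mul (Int.natAbs_ne_zero.2 hx) (Int.natAbs_ne_zero.2 hy)]

theorem lamZ_prod (R : Multiset ℚ) (u : ℚ → ℤ) (hu : ∀ r ∈ R, u r ≠ 0) :
    lam (R.map u).prod.natAbs = (R.map fun r => lam (u r).natAbs).prod := by
  induction R using Multiset.induction_on with
  | empty => simp [lam]
  | cons r R ih =>
    have h1 : ∀ q ∈ R, u q ≠ 0 := fun q hq => hu q (Multiset.mem_cons_of_mem hq)
    have h2 : (R.map u).prod ≠ 0 := Multiset.prod_ne_zero fun h => by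
      obtain ⟨q, hq, e⟩ := Multiset.mem_map.mp h
      exact h1 q hq e
    simp only [Multiset.map_cons, Multiset.prod_cons]
    rw [lamZ_mul (hu r (Multiset.mem_cons_self _ _)) h2, ih h1]

theorem prod_odd (R : Multiset ℚ) (f : ℚ → ℝ) (hf : ∀ r, f r * f r = 1) :
    (R.map f).prod = ∏ r ∈ R.toFinset.filter (fun r => Odd (R.count r)), f r := by
  rw [prod_multiset_map_count, prod_filter]
  refine prod_congr rfl fun r _ => ?_
  split_ifs with h
  · obtain ⟨j, hj⟩ := h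
    rw [hj, pow_succ, pow_mul, sq, hf, one_pow, one_mul]
  · obtain ⟨j, hj⟩ := Nat.not_odd_iff_even.1 h
    rw [hj, ← two_mul, pow_mul, sq, hf, one_pow]

theorem half (R : Multiset ℚ) (h : ∀ r, Even (R.count r)) : ∃ R' : Multiset ℚ, R = R' + R' := by
  refine ⟨Finsupp.toMultiset (R.toFinsupp.mapRange (· / 2) (by simp)), ?_⟩
  ext r
  obtain ⟨j, hj⟩ := h r
  rw [Multiset.count_add, Finsupp.count_toMultiset, Finsupp.mapRange_apply,
    Multiset.toFinsupp_apply]
  omega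

theorem prim_lin (r : ℚ) : (C (r.den : ℤ) * X - C r.num : ℤ[X]).IsPrimitive := by
  refine isPrimitive_iff_isUnit_of_C_dvd.2 fun c hc => ?_
  have h0 := (C_dvd_iff_dvd_coeff _ _).1 hc 0
  have h1 := (C_dvd_iff_dvd_coeff _ _).1 hc 1
  simp only [coeff_sub, coeff_C_mul, coeff_X_zero, mul_zero, coeff_C_zero, zero_sub, dvd_neg,
    coeff_X_one, mul_one, coeff_C_succ, sub_zero] at h0 h1
  exact (Int.isCoprime_iff_gcd_eq_one.2 (show Int.gcd r.num r.den = 1 from
    r.reduced)).isUnit_of_dvd' h0 h1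

theorem prim_prod (R : Multiset ℚ) :
    (R.map fun r => (C (r.den : ℤ) * X - C r.num : ℤ[X])).prod.IsPrimitive := by
  induction R using Multiset.induction_on with
  | empty => simp [isPrimitive_one]
  | cons r R ih =>
    rw [Multiset.map_cons, Multiset.prod_cons]
    exact (prim_lin r).mul ih

theorem den_ne (R : Multiset ℚ) : (R.map fun r => (r.den : ℤ)).prod ≠ 0 :=
  Multiset.prod_ne_zero fun h => by
    obtain ⟨r, -, hr⟩ := Multiset.mem_map.mp h
    exact r.den_nz (by exact_mod_cast hr)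

theorem sq_of_even {S : ℤ[X]} (hs : (S.map (Int.castRingHom ℚ)).Splits)
    (h : ∀ r, Even ((S.map (Int.castRingHom ℚ)).roots.count r)) :
    ∃ (c : ℤ) (Q : ℤ[X]), S = C c * Q ^ 2 := by
  have hev := eval_eq hs
  obtain ⟨R, hR⟩ := half _ h
  rw [hR] at hev
  set D := ((R + R).map fun r => (r.den : ℤ)).prod with hD
  set Q := (R.map fun r => (C (r.den : ℤ) * X - C r.num : ℤ[X])).prod with hQ
  have hQe : ∀ n : ℤ, Q.eval n = (R.map fun r => (r.den : ℤ) * n - r.num).prod := fun n => by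
    rw [hQ, eval_multiset_prod, Multiset.map_map]
    congr 1
    refine Multiset.map_congr rfl fun r _ => ?_
    simp only [Function.comp, eval_sub, eval_mul, eval_C, eval_X]
  have e : C D * S = C S.leadingCoeff * Q ^ 2 := Polynomial.funext fun n => by
    rw [eval_mul, eval_mul, eval_C, eval_C, eval_pow, hQe, mul_comm D, hev, Multiset.map_add,
      Multiset.prod_add, sq]
  have h1 : D ∣ (C S.leadingCoeff * Q ^ 2).content := dvd_content_iff_C_dvd.2 ⟨S, e.symm⟩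
  have h2 : (Q ^ 2).content = 1 := by
    rw [sq]
    exact ((prim_prod R).mul (prim_prod R)).content_eq_one
  have h3 := h1.trans (associated_content_C_mul S.leadingCoeff (Q ^ 2)).dvd
  rw [h2, mul_one] at h3
  obtain ⟨c, hc⟩ := h3
  refine ⟨c, Q, mul_left_cancel₀ (C_ne_zero.2 (den_ne (R + R))) ?_⟩
  rw [← hD, e, hc, C_mul, mul_assoc]

theorem tail {f g : ℕ → ℝ} (hf : ∀ n, |f n| ≤ 1) (n0 : ℕ)
    (h : ∀ m, 1 ≤ m → f (m + n0) = g m) (N : ℕ) :
    |∑ n ∈ Icc 1 N, f n| ≤ |∑ n ∈ Icc 1 N, g n| + 2 * n0 := by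
  have bd : ∀ (u : ℕ → ℝ), (∀ n, |u n| ≤ 1) → ∀ a : ℕ, |∑ n ∈ Ioc a (a + n0), u n| ≤ n0 :=
    fun u hu a => (abs_sum_le_sum_abs _ _).trans
      ((sum_le_card_nsmul _ _ 1 fun n _ => hu n).trans (by simp))
  have e1 : ∑ n ∈ Icc 1 N, g n = ∑ n ∈ Ioc n0 (N + n0), f n := by
    refine sum_bij (fun m _ => m + n0) (fun m hm => ?_) (fun m _ m' _ e => by omega)
      (fun n hn => ⟨n - n0, ?_, ?_⟩) fun m hm => (h m (mem_Icc.1 hm).1).symm
    · rw [mem_Icc] at hm
      exact mem_Ioc.2 (by omega)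
    · rw [mem_Ioc] at hn
      exact mem_Icc.2 (by omega)
    · rw [mem_Ioc] at hn
      omega
  have e2 : ∑ n ∈ Icc 1 N, f n = ∑ n ∈ Ioc 0 N, f n := rfl
  have e3 := sum_Ioc_consecutive f (Nat.zero_le N) (Nat.le_add_right N n0)
  have e4 := sum_Ioc_consecutive f (Nat.zero_le n0) (Nat.le_add_left n0 N)
  have b1 := abs_le.1 (bd f hf N)
  have b2 := bd f hf 0
  rw [zero_add, abs_le] at b2
  rw [e1, e2, abs_le]
  constructor
  · linarith [neg_abs_le (∑ n ∈ Ioc n0 (N + n0), f n)]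
  · linarith [le_abs_self (∑ n ∈ Ioc n0 (N + n0), f n)]

theorem poly (h : S_Forms) {S R : ℤ[X]} (hs : (S.map (Int.castRingHom ℚ)).Splits)
    (hsq : ¬ ∃ (c : ℤ) (Q : ℤ[X]), S * R ^ 2 = C c * Q ^ 2) {δ : ℝ} (hδ : 0 < δ) :
    ∀ᶠ N : ℕ in atTop, |∑ n ∈ Icc 1 N, lam ((S * R ^ 2).eval (n : ℤ)).natAbs| ≤ δ * N := by
  classical
  have hS : ¬ ∃ (c : ℤ) (Q : ℤ[X]), S = C c * Q ^ 2 := fun ⟨c, Q, e⟩ =>
    hsq ⟨c, Q * R, by rw [e]; ring⟩
  have R0 : R ≠ 0 := fun e => hsq ⟨0, 0, by simp [e]⟩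
  have S0 : S ≠ 0 := fun e => hS ⟨0, 0, by simp [e]⟩
  have hlc : S.leadingCoeff ≠ 0 := leadingCoeff_ne_zero.2 S0
  have hodd : ∃ r, Odd ((S.map (Int.castRingHom ℚ)).roots.count r) := by
    by_contra hn
    exact hS (sq_of_even hs fun r => Nat.not_odd_iff_even.1 fun e => hn ⟨r, e⟩)
  have hev := eval_eq hs
  generalize (S.map (Int.castRingHom ℚ)).roots = W at hev hodd
  set O := W.toFinset.filter (fun r => Odd (W.count r)) with hO
  have Opos : 0 < O.card := by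
    obtain ⟨r, hr⟩ := hodd
    exact card_pos.2 ⟨r, mem_filter.2 ⟨Multiset.mem_toFinset.2 (Multiset.count_pos.1 hr.pos), hr⟩⟩
  set n0 := ∑ r ∈ W.toFinset, r.num.natAbs + ∑ z ∈ R.roots.toFinset, z.natAbs with hn0
  have pos : ∀ r ∈ W, r.num ≤ (r.den : ℤ) * n0 := fun r hr => by
    have h1 : r.num.natAbs ≤ ∑ r ∈ W.toFinset, r.num.natAbs :=
      single_le_sum (f := fun r : ℚ => r.num.natAbs) (fun _ _ => Nat.zero_le _)
        (Multiset.mem_toFinset.mpr hr)
    have h2 : (1 : ℤ) ≤ r.den := by exact_mod_cast r.den_pos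
    have h3 : r.num ≤ n0 := by omega
    nlinarith [Int.natCast_nonneg n0]
  have Rne : ∀ m : ℕ, 1 ≤ m → R.eval ((m + n0 : ℕ) : ℤ) ≠ 0 := fun m hm e => by
    have h1 : ((m + n0 : ℕ) : ℤ).natAbs ≤ ∑ z ∈ R.roots.toFinset, z.natAbs :=
      single_le_sum (f := fun z : ℤ => z.natAbs) (fun _ _ => Nat.zero_le _)
        (Multiset.mem_toFinset.mpr ((mem_roots R0).2 e))
    omega
  let e := O.equivFin.symm
  have eR : ∀ i, (e i).1 ∈ W := fun i => Multiset.mem_toFinset.mp (mem_filter.1 (e i).2).1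
  set a : Fin O.card → ℕ := fun i => (e i).1.den with ha
  set b : Fin O.card → ℕ := fun i => (((e i).1.den : ℤ) * n0 - (e i).1.num).toNat with hb
  have hb' : ∀ i, (b i : ℤ) = ((e i).1.den : ℤ) * n0 - (e i).1.num := fun i =>
    Int.toNat_of_nonneg (by linarith [pos _ (eR i)])
  have hab : ∀ i (m : ℕ), (((e i).1.den : ℤ) * ((m + n0 : ℕ) : ℤ) - (e i).1.num).natAbs =
      a i * m + b i := fun i m => by
    have : ((e i).1.den : ℤ) * ((m + n0 : ℕ) : ℤ) - (e i).1.num = ((a i * m + b i : ℕ) : ℤ) := by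
      push_cast
      rw [hb' i]
      ring
    rw [this, Int.natAbs_natCast]
  set D := (W.map fun r => (r.den : ℤ)).prod with hD
  set ε := lam S.leadingCoeff.natAbs * lam D.natAbs with hε
  have ε1 : |ε| = 1 := by rw [hε, abs_mul, abs_lam, abs_lam, one_mul]
  have key : ∀ m, 1 ≤ m → lam ((S * R ^ 2).eval ((m + n0 : ℕ) : ℤ)).natAbs =
      ε * ∏ i, lam (a i * m + b i) := fun m hm => by
    have u0 : ∀ r ∈ W, (r.den : ℤ) * ((m + n0 : ℕ) : ℤ) - r.num ≠ 0 := fun r hr => by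
      have h2 : (1 : ℤ) ≤ r.den := by exact_mod_cast r.den_pos
      have h3 : (1 : ℤ) ≤ m := by exact_mod_cast hm
      have h4 := pos r hr
      push_cast
      nlinarith
    have u1 : (W.map fun r => (r.den : ℤ) * ((m + n0 : ℕ) : ℤ) - r.num).prod ≠ 0 :=
      Multiset.prod_ne_zero fun h => by
        obtain ⟨q, hq, e⟩ := Multiset.mem_map.mp h
        exact u0 q hq e
    have h1 := hev ((m + n0 : ℕ) : ℤ)
    have s0 : S.eval ((m + n0 : ℕ) : ℤ) ≠ 0 := fun e => by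
      rw [e, zero_mul] at h1
      exact mul_ne_zero hlc u1 h1.symm
    have h2 := congrArg (fun z : ℤ => lam z.natAbs) h1
    rw [lamZ_mul s0 (den_ne W), lamZ_mul hlc u1, lamZ_prod W _ u0,
      prod_odd W _ fun r => lam_sq _, ← hO, ← prod_coe_sort O, ← e.prod_comp] at h2
    simp only [hab] at h2
    rw [eval_mul, eval_pow, sq, lamZ_mul s0 (mul_ne_zero (Rne m hm) (Rne m hm)),
      lamZ_mul (Rne m hm) (Rne m hm), lam_sq, mul_one, hε, mul_right_comm, ← h2, mul_assoc,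
      lam_sq, mul_one]
  have hF := h O.card a b (δ / 2) Opos (fun i => (e i).1.den_pos) (fun i j hij h => hij (by
    have h1 : (a i : ℤ) * b j = a j * b i := by exact_mod_cast h
    rw [hb', hb'] at h1
    refine e.injective (Subtype.ext (Rat.eq_iff_mul_eq_mul.mpr ?_))
    simp only [ha] at h1
    linarith)) (half_pos hδ)
  filter_upwards [hF, tendsto_natCast_atTop_atTop.eventually_ge_atTop (4 * (n0 : ℝ) / δ)]
    with N h1 h2
  have h3 := tail (f := fun n => lam ((S * R ^ 2).eval (n : ℤ)).natAbs)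
    (g := fun m => ε * ∏ i, lam (a i * m + b i)) (fun n => (abs_lam _).le) n0 key N
  rw [← mul_sum, abs_mul, ε1, one_mul] at h3
  rw [div_le_iff₀ hδ] at h2
  linarith

end Pool.Agent.P.MP_192724_nt.Sp
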