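import Pool.Agent.P.MP_4ef411_nt.Al.S7M
import Pool.Agent.P.MP_192724_nt.Sp.St

/-! Section 7 with the Liouville function in one role and free functions at the other sites. -/

open Finset

namespace Pool.Agent.P.MP_192724_nt.Sp

open Pool.Agent.P.MP_a14ce1_nt
open Pool.Agent.P.MP_a14ce1_nt.Fu
open Pool.Agent.P.MP_a14ce1_nt.Fu.St
open Pool.Agent.P.MP_a14ce1_nt.Ch (pv lam)
open Pool.Agent.P.MP_4ef411_nt
open Pool.Agent.P.MP_4ef411_nt.Al.S7M (dx gx gw)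

theorem no7 (h7 : Al.S_Sec7) (hN : Fu.S_NoPot) : S_No7 := by
  intro r L δ hδ
  obtain ⟨A, c2, C, hA, -, c0, c1, h7⟩ := h7 r L δ hδ
  obtain ⟨C'', hC'', hN⟩ := hN A hA
  refine ⟨c2, C + ⌈64 / c2⌉₊ + ⌈C''⌉₊ + 40, c0, c1, fun Om cm M B hOm hcm hM hlM hcM => ?_⟩
  set Cn := C + ⌈64 / c2⌉₊ + ⌈C''⌉₊ + 40 with hCn
  have e1 := Nat.le_ceil (64 / c2)
  have e2 := Nat.le_ceil C''
  have e3 : (0 : ℝ) ≤ C := Nat.cast_nonneg C
  have e4 : (0 : ℝ) ≤ 64 / c2 := by positivity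
  have hOm' : (C : ℝ) + ⌈64 / c2⌉₊ + ⌈C''⌉₊ + 40 ≤ Om := by
    rw [hCn] at hOm; push_cast at hOm; exact hOm
  have o1 : 64 / c2 ≤ Om := by linarith
  have o2 : C'' ≤ Om := by linarith
  have o3 : 40 ≤ Om := by linarith
  have o0 : 0 < Om := by linarith
  have o1' : 64 ≤ Om * c2 := (div_le_iff₀ c0).1 o1
  have one : (1 : ℝ) ≤ Om := by linarith
  have g0 : 0 < c2 / Om := by positivity
  have g1 : 64 ≤ Om ^ 2 * (c2 / Om) := by
    rw [show Om ^ 2 * (c2 / Om) = Om * c2 by field_simp]; exact o1'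
  have g2 : c2 / Om ≤ 1 := (div_le_one o0).2 (by linarith)
  set γ := c2 / Om with hγ
  have g3 : γ / Om ≤ 1 := (div_le_one o0).2 (by linarith)
  have g4 : 0 < γ / Om := by positivity
  obtain ⟨Y0, hY0⟩ := hN B ((γ / Om) ^ 2 / 128) Om (by positivity) (by nlinarith) one
  have x0 := Real.exp_pos M
  refine ⟨B + ⌈16 * cm * |Y0| / γ⌉₊ + ⌈256 * Real.exp M * cm / γ ^ 2⌉₊,
    fun ι Z d G i0 wb τ ℓ a T W hZ hB hH hE hT hW hf hc hs ha hNL => ?_⟩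
  have hZ' : (B : ℝ) + ⌈16 * cm * |Y0| / γ⌉₊ + ⌈256 * Real.exp M * cm / γ ^ 2⌉₊ ≤ Z := by
    exact_mod_cast hZ
  have z1 := Nat.le_ceil (16 * cm * |Y0| / γ)
  have z2 := Nat.le_ceil (256 * Real.exp M * cm / γ ^ 2)
  have z3 : (0 : ℝ) ≤ B := Nat.cast_nonneg B
  have z4 : 0 ≤ 16 * cm * |Y0| / γ := by positivity
  have z5 : 0 ≤ 256 * Real.exp M * cm / γ ^ 2 := by positivity
  have y1 : 16 * cm * |Y0| ≤ Z * γ := (div_le_iff₀ g0).1 (by linarith)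
  have y2 : 256 * Real.exp M * cm ≤ Z * γ ^ 2 := (div_le_iff₀ (by positivity)).1 (by linarith)
  have p1 : Om ^ 40 ≤ Om ^ Cn := pow_le_pow_right₀ one (by omega)
  have p2 : Om ^ C ≤ Om ^ Cn := pow_le_pow_right₀ one (by omega)
  have hZ0 : (0 : ℝ) ≤ Z := Nat.cast_nonneg Z
  have m0 : 0 < cm := by linarith
  have hP := h7 ι Z d G i0 Om wb τ ℓ Om cm M (γ * Z / (16 * cm))
    (hH.mono (Real.exp_pos _).le (Real.exp_le_exp.2 p2)) hE
    (fun n => by simpa [← hf n] using norm_wl (T := T) hW n) hc hs one hM hcm (by omega)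
    (by rw [← hγ, ← mul_div_assoc, le_div_iff₀ (by positivity)]; linarith)
    (by rw [← hγ]; exact le_of_eq (by field_simp))
    (by
      rw [div_mul_eq_mul_div, le_div_iff₀ (by positivity)]
      have a1 : 64 * cm ≤ Om ^ 2 * γ * cm := by gcongr
      have a2 : γ * (Om ^ 2 * cm) ≤ γ * Real.exp M := by gcongr
      have a3 : (Z : ℝ) * (32 * cm) ≤ Z * (γ * Real.exp M) :=
        mul_le_mul_of_nonneg_left (by linarith) hZ0
      linarith)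
    (by
      have a1 : 64 * (Real.exp M * cm) ≤ Om ^ 2 * γ * (Real.exp M * cm) := by gcongr
      have a2 : γ * (Om ^ 2 * (Real.exp M * cm)) ≤ γ * d.N := by gcongr
      rw [← hγ]
      linarith)
  have hf' : (fun n => (d.f n : ℂ)) = wl T W := funext hf
  rw [hf'] at hP
  refine hY0 T W a (γ * Z / (16 * cm)) M hT hW ha hM ?_ ?_ hP
  · have a1 : 1 / Om ^ 6 ≤ (γ / Om) ^ 2 / 128 := by
      rw [div_pow, div_div, div_le_div_iff₀ (by positivity) (by positivity)]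
      have : 64 ^ 2 ≤ (Om ^ 2 * γ) ^ 2 := by gcongr
      nlinarith [pow_pos o0 2]
    calc C'' * Om ^ 2 ≤ Om ^ 2 * Om ^ 2 := by gcongr; nlinarith
      _ = (1 / Om ^ 6) ^ 6 * Om ^ 40 := by field_simp
      _ ≤ ((γ / Om) ^ 2 / 128) ^ 6 * Real.log M := by gcongr; exact p1.trans hlM
  · refine (le_abs_self Y0).trans ?_
    rw [le_div_iff₀ (by positivity)]
    linarith

variable {F : Fam} {P : Par}

theorem hyp7L (h : Hyp0 F P) {A : Type} [Fintype A] (dt : ℕ → A) {Z : ℕ} {C0 : ℕ → Finset ℕ}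
    (hD : Dat F P A Z C0) {s : ℕ → ℝ} (hs : ∀ d, |s d| ≤ 1) {Om η E : ℝ} (hOm : P.Λ ≤ Om)
    (h0 : 0 < η) (h1 : η ≤ 1) (hM : 0 < P.Ms)
    (hσ : 16 * (40 * F.k * P.Λ ^ 3 * Real.exp (2 * P.Lp)) ^ 2 * P.Λ * P.σin ≤ η ^ 2)
    (hZ : 4 * Real.exp P.Lp * P.Λ ^ 3 ≤ η * Z) (hE : E ≤ √F.D)
    (hτ : P.Λ ^ 2 ^ F.k * tauI (2 ^ F.k) F.N P.Ms * E ≤ 1) :
    (dx F Om dt Z C0 s lam).Hyp (F.k - 1) (8 * F.k) 0 Om (EG F.U F.wk)
      (P.Λ ^ 2 ^ F.k * tauI (2 ^ F.k) F.N P.Ms) (2 / Real.log F.D) η E := by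
  have L := h.L2
  have hk : F.k - 1 + 1 = F.k := by have := h.k2; omega
  exact {
    Z0 := hD.Z0
    om := by linarith
    wb0 := by rw [EG_eq]; exact Em_nonneg fun A _ => h.wk0 A
    wb1 := by
      refine le_trans ?_ h.Evk
      rw [EG_eq, EG_eq]
      exact Em_mono fun A _ => h.wkv A
    pos := fun c hc => ⟨h.w_nonneg c, (geo7 h hc).1⟩
    mass := mass7 h
    len := fun c hc => Hyp0.g7_len h hc
    lg := fun c hc => Hyp0.g7_lg h hc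
    l0 := div_pos two_pos (Hyp0.g7_log h)
    big := fun c hc => hE.trans (Hyp0.g7_sqrt h hc)
    tau := hτ
    sub := fun c hc => Hyp0.g7_sub h hc
    th1 := fun c _ p => hs _
    w0 := fun m => h.wk0 _
    w1 := fun m => (h.wkL _).trans hOm
    Fw := fun c hc n b m _ e => by
      have e1 : dp F.U (n + b) = dp F.U m := by
        rw [e]
        exact dp_mul h.prU (fun q hq => (Nat.Prime.coprime_iff_not_dvd (h.prU q hq)).1
          (h.cop_cp (CC7_sub hc) (F.U_sub hq)).symm) m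
      have e2 : |pred Z F.Qk0 dt C0 F.z0 lam n b| ≤ 1 :=
        abs_yr_le _ (fun x => h.z0_nonneg _) (fun x => (abs_lam _).le) n
      change |F.wk (dp F.U (n + b)) * pred Z F.Qk0 dt C0 F.z0 lam n b| ≤ F.wk (dp F.U m)
      rw [abs_mul, e1, abs_of_nonneg (h.wk0 _)]
      exact mul_le_of_le_one_right (h.wk0 _) e2
    msF := fun b _ => (ms_gl_per dt C0 (per_dp (pv_dvd subset_union_right) b)).comp₂
      (ms_yr _ _ _) fun S t => F.wk S * t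
    msc := fun c hc x y e => (Nat.ModEq.of_dvd
      (pv_dvd ((CC7_sub hc).trans subset_union_left)) (gl_mod e) :)
    ind := fun c hc S hS hn => ind7 h hM hD.Z0 hD.per hc _ hS (hk ▸ hn)
    t2 := fun u hu hu1 => St.t27 h dt hD s (by linarith) h0 h1 hσ hZ u hu hu1
    fr := by
      rw [zero_mul, zero_mul]
      exact ex_nonneg fun n => sum_nonneg fun c _ => mul_nonneg (h.w_nonneg c) (abs_nonneg _) }

theorem sec7M (hN : S_No7) : S_SEC7 := by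
  intro k
  refine ⟨0, fun δ Cw hδ => ?_⟩
  rcases le_or_gt Cw 0 with hCw | hCw
  · exact ⟨0, fun F P _ e h _ => absurd h.Cw1 (by rw [e]; linarith)⟩
  obtain ⟨η, C, η0, η1, hno⟩ := hN (k - 1) (8 * k) (δ / (2 * Cw)) (by positivity)
  obtain ⟨n, hn⟩ : ∃ n : ℕ, 1 / η ^ 2 ≤ n := ⟨_, Nat.le_ceil _⟩
  obtain ⟨Q, q1, q2, q3, q4⟩ : ∃ Q : ℕ, (C + 3) * C ≤ Q ∧ (C + 3) * 2 ≤ Q ∧
      2 ^ k + (3 * k + 1) ≤ Q ∧ 24 + n ≤ Q := by
    generalize (C + 3) * C = x, 2 ^ k = y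
    exact ⟨x + (C + 3) * 2 + (y + (3 * k + 1)) + (24 + n), by omega⟩
  refine ⟨Q + 1, fun F P hk hc hh h7 => ?_⟩
  subst hk hc
  have h := hh.toHyp0
  have L := h.L2
  have L1 : (1 : ℝ) ≤ P.Λ := by linarith
  have L0 : (0 : ℝ) < P.Λ := by linarith
  have pw : ∀ {a b : ℕ}, a ≤ b → P.Λ ^ a ≤ P.Λ ^ b := fun e => pow_le_pow_right₀ L1 e
  have two : ∀ a : ℕ, (2 : ℝ) ^ a ≤ P.Λ ^ a := fun a => pow_le_pow_left₀ (by norm_num) L a
  have nat : ∀ a : ℕ, (a : ℝ) ≤ P.Λ ^ a := fun a =>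
    le_trans (by exact_mod_cast (Nat.lt_two_pow_self (n := a)).le) (two a)
  have Q0 := pow_pos L0 Q
  have Q2 : 2 * P.Λ ^ Q ≤ P.Λ ^ (Q + 1) := by rw [pow_succ]; nlinarith
  have o1 : (P.Λ ^ (C + 3)) ^ C ≤ P.Λ ^ Q := by rw [← pow_mul]; exact pw q1
  have o2 : (P.Λ ^ (C + 3)) ^ 2 ≤ P.Λ ^ Q := by rw [← pow_mul]; exact pw q2
  have o3 : P.Λ ^ 3 ≤ P.Λ ^ (C + 3) := pw (by omega)
  have o4 : P.Λ ≤ P.Λ ^ (C + 3) := le_self_pow₀ L1 (by omega)
  have o5 : (C : ℝ) ≤ P.Λ ^ (C + 3) := (nat C).trans (pw (by omega))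
  generalize P.Λ ^ (C + 3) = Om at o1 o2 o3 o4 o5
  have O0 : 0 < Om := by linarith
  have p1 := h.Lp1
  have x0 := Real.exp_pos P.Lp
  have x1 : 1 ≤ Real.exp P.Lp := Real.one_le_exp (by linarith)
  have m1 := h7.Mlo
  have Q1 : 1 ≤ P.Λ ^ Q := one_le_pow₀ L1
  have hM : 1 ≤ P.M := by linarith
  have xe : ∀ t : ℝ, t ≤ Real.exp t := fun t => by linarith [Real.add_one_le_exp t]
  obtain ⟨Z0, hno⟩ := hno Om (2 * Real.exp P.Lp) P.M (F.N + F.TT.sup id) o5 (by linarith) hM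
    (by linarith [h7.Mlog]) (by
      refine le_trans ?_ (Real.exp_le_exp.2 m1)
      rw [Real.exp_add]
      have := xe (P.Λ ^ (Q + 1))
      nlinarith)
  refine ⟨Z0 + ⌈4 * Real.exp P.Lp * P.Λ ^ 3 / η⌉₊, 
    fun A _ dt Z C0 s X i0 hZ hD hs hX hi hx => ?_⟩
  by_contra hT
  have lN : 0 ≤ Real.log F.N := Real.log_natCast_nonneg _
  have xQ := Real.exp_pos (P.Λ ^ (Q + 1))
  have hMs : 0 < P.Ms := lt_of_lt_of_le (by positivity) h7.ind
  have hD1 : Real.exp (P.M + P.Lp) ≤ F.D :=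
    le_trans (le_mul_of_one_le_right (Real.exp_pos _).le (by linarith)) h7.MD
  refine hno _ Z (dx F Om dt Z C0 s lam) (gx F dt Z C0 X) i0 _ _ _ P.a F.TT (W7 F Om) (by omega)
    (Nat.le_add_right _ _) (hyp7L h dt hD hs o4 η0 η1 hMs ?_ ?_ ?_ ?_)
    ⟨by omega, hx ▸ rfl, fun i c hc n b m _ e => gw h dt C0 (hX i) hc n b m e,
      Al.S7M.g7_fr h Om dt Z C0 s lam X hδ.le (not_le.1 hT).le⟩ ?_ (W7_le h o3) ?_
    (fun c hc => (geo7 h hc).2.1) (fun u => (ball7 h u).trans ?_) h7.aM ?_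
  · have s0 := h.σin0
    have a1 : Real.exp (2 * P.Lp) ^ 2 ≤ Real.exp ((Q + 1 : ℕ) * P.Lp) := by
      rw [← Real.exp_nat_mul]
      refine Real.exp_le_exp.2 ?_
      have : (4 : ℝ) ≤ (Q + 1 : ℕ) := by exact_mod_cast (by omega : 4 ≤ Q + 1)
      push_cast at this ⊢
      nlinarith
    have a2 : (25600 : ℝ) ≤ P.Λ ^ 15 := le_trans (by norm_num) (two 15)
    have a3 : 1 ≤ η ^ 2 * P.Λ ^ n := by
      have := (div_le_iff₀ (by positivity)).1 (hn.trans (nat n))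
      linarith
    have a4 := h.Lk
    have a5 : (0 : ℝ) ≤ F.k := Nat.cast_nonneg _
    calc _ = 25600 * (F.k : ℝ) ^ 2 * P.Λ ^ 7 * Real.exp (2 * P.Lp) ^ 2 * P.σin * 1 := by ring
      _ ≤ P.Λ ^ 15 * P.Λ ^ 2 * P.Λ ^ 7 * Real.exp ((Q + 1 : ℕ) * P.Lp) * P.σin *
          (η ^ 2 * P.Λ ^ n) := by
          refine mul_le_mul ?_ a3 zero_le_one (by positivity)
          gcongr
      _ = η ^ 2 * (P.Λ ^ (24 + n) * Real.exp ((Q + 1 : ℕ) * P.Lp) * P.σin) := by ring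
      _ ≤ η ^ 2 * (P.Λ ^ (Q + 1) * Real.exp ((Q + 1 : ℕ) * P.Lp) * P.σin) := by
          have := pw (show 24 + n ≤ Q + 1 by omega)
          generalize P.Λ ^ (24 + n) = x at this
          gcongr
      _ ≤ η ^ 2 := mul_le_of_le_one_right (by positivity) h7.test
  · have a1 : (⌈4 * Real.exp P.Lp * P.Λ ^ 3 / η⌉₊ : ℝ) ≤ Z := by
      exact_mod_cast le_trans (Nat.le_add_left _ _) hZ
    have := (div_le_iff₀ η0).1 ((Nat.le_ceil _).trans a1)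
    linarith
  · refine Real.le_sqrt_of_sq_le (le_trans ?_ hD1)
    rw [← Real.exp_nat_mul]
    refine Real.exp_le_exp.2 ?_
    push_cast
    linarith
  · have a1 : tauI (2 ^ F.k) F.N P.Ms * Real.exp (P.Λ ^ (Q + 1)) ≤ P.Λ ^ (3 * F.k + 1) := by
      rw [tauI, div_mul_eq_mul_div, div_le_iff₀ hMs]
      have b1 : 2 * ((2 ^ F.k : ℕ) : ℝ) ^ 3 ≤ P.Λ ^ (3 * F.k + 1) := by
        refine le_trans (le_of_eq ?_) (two _)
        push_cast
        ring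
      calc _ = 2 * ((2 ^ F.k : ℕ) : ℝ) ^ 3 *
            (Real.exp (P.Λ ^ (Q + 1)) * (1 + Real.log F.N)) := by ring
        _ ≤ _ := by gcongr; exact h7.ind
    have a2 : P.Λ ^ 2 ^ F.k * P.Λ ^ (3 * F.k + 1) ≤ Real.exp (P.Λ ^ Q) := by
      rw [← pow_add]; exact (pw q3).trans (xe _)
    have a3 : Real.exp (P.Λ ^ Q) * Real.exp (Om ^ C) ≤ Real.exp (P.Λ ^ (Q + 1)) := by
      rw [← Real.exp_add]; exact Real.exp_le_exp.2 (by linarith)
    refine le_of_mul_le_mul_right ?_ xQ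
    calc _ = P.Λ ^ 2 ^ F.k * (tauI (2 ^ F.k) F.N P.Ms * Real.exp (P.Λ ^ (Q + 1))) *
          Real.exp (Om ^ C) := by ring
      _ ≤ P.Λ ^ 2 ^ F.k * P.Λ ^ (3 * F.k + 1) * Real.exp (Om ^ C) := by gcongr
      _ ≤ Real.exp (P.Λ ^ Q) * Real.exp (Om ^ C) := by gcongr
      _ ≤ _ := by linarith
  · intro q hq
    obtain ⟨b1, b2⟩ := h7.Ta q hq
    have b3 : 0 ≤ P.a := by
      by_contra b
      nlinarith [Real.log_natCast_nonneg q, mul_pos (neg_pos.2 (not_le.1 b)) L0]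
    exact ⟨h.prT q hq, (le_sup (f := id) hq).trans (Nat.le_add_left _ _), b1,
      b2.trans (by gcongr)⟩
  · intro m
    change ((if m = 0 then 0 else W7 F Om (dp F.TT m) * lam m : ℝ) : ℂ) = _
    rw [Fu.wl]
    split_ifs
    · simp
    · rfl
  · have l1 := h.l1 F.m
    have c1 := h.Csb1
    rw [div_le_div_iff₀ (by linarith) (by linarith)]
    calc P.Csb * P.M ≤ P.Λ * (P.Λ * P.l F.m) := by
          gcongr
          exacts [h.LCsb, h7.Mhi]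
      _ = P.Λ ^ 2 * P.l F.m := by ring
      _ ≤ _ := by gcongr; exact (pw (by norm_num)).trans o3
  · have a1 := h7.MD
    have a2 := h.N4
    have a3 := h.D20
    rw [Real.exp_add] at a1
    have a4 := mul_pos (Real.exp_pos P.M) x0
    change _ ≤ (F.N : ℝ)
    nlinarith

end Pool.Agent.P.MP_192724_nt.Sp
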