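import Pool.Agent.P.MP_4ef411_nt.Al.Bias
import Pool.Agent.P.MP_4ef411_nt.Al.Comp
import Pool.Agent.P.MP_4ef411_nt.Al.Par
import Pool.Agent.P.MP_4ef411_nt.Al.Sec7
import Pool.Agent.P.MP_4ef411_nt.Al.Test1
import Pool.Agent.P.MP_a14ce1_nt.Fu.Fin9
import Pool.Agent.P.MP_a14ce1_nt.Fu.L8
import Pool.Agent.P.MP_a14ce1_nt.Fu.PaTop
import Pool.Agent.P.MP_a14ce1_nt.Fu.Role
import Pool.Agent.P.MP_192724_nt.Sp.Glue
import Pool.Agent.P.MP_192724_nt.Sp.Poly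
import Pool.Agent.P.MP_192724_nt.Sp.S7

/-! The blocks put together. -/

namespace Pool.Agent.P.MP_192724_nt.Sp

open Pool.Agent.P.MP_a14ce1_nt
open Pool.Agent.P.MP_4ef411_nt

theorem main_all : S_Main :=
  main Al.bias Al.comp Fu.St.role Al.test1 (sec7M (no7 Al.sec7 (Fu.noPot_of_loc Fu.L8.loc)))
    (Al.par Fu.Pa.par_top) Fu.St.s_vv

theorem forms_all : S_Forms := forms main_all

end Pool.Agent.P.MP_192724_nt.Sp
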